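import Pool.Agent.V1157.GA.Defs
import Pool.Agent.V1157.BD.Main

/-!
# Group algebras acting on cycles and cohomology classes: the amplification
-/

open CategoryTheory AlgebraicGeometry

universe u v w x y

namespace Pool.Agent.V1157.GA

open Pool.Agent.H914 Pool.Agent.H914.VarClass Pool.Agent.H914.VarClass.Obj Pool.Agent.W492.BB
  Pool.Agent.W550.Corr Pool.Agent.TH133 Pool.Agent.Y148.BB
open Pool.Agent.V1157.BD (Pw)

set_option linter.unusedSectionVars false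

/-- The linear algebra of the amplification. -/
lemma core {K G V S I : Type*} [Field K] [Group G] [AddCommGroup V] [Module K V] [AddCommGroup S]
    [Module K S] [MulAction G I] {ρ : G → V → V} {τ : G → S → S} {DV : Submodule K V}
    {DS : Submodule K S} {M : ℕ} (pl : I → Fin M → S →ₗ[K] V) (ps : I → Fin M → V →ₗ[K] S)
    (hpl : ∀ i m, ∀ s ∈ DS, pl i m s ∈ DV)
    (hps : ∀ g i m, ∀ v ∈ DV, ps (g • i) m (ρ g v) = τ g (ps i m v))
    (h1 : ∀ s ∈ DS, τ 1 s = s) (hmul : ∀ g h, ∀ s ∈ DS, τ (g * h) s = τ g (τ h s))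
    (hsmul : ∀ g (c : K), ∀ s ∈ DS, τ g (c • s) = c • τ g s)
    (BV : Submodule K V) (BS : Submodule K S) (hB : ∀ i m, ∀ v ∈ BV, ps i m v ∈ BS)
    (hBG : ∀ g, ∀ s ∈ BS, τ g s ∈ BS) {f : G →₀ K} {h₀ : G} (hf : h₀ ∈ f.support) {i₀ : I}
    (hi₀ : ∀ h ∈ f.support, h ≠ h₀ → h • i₀ ≠ h₀ • i₀) {t : S} (ht : t ∈ DS)
    (hne : ∀ i i' m m', (i, m) ≠ (i', m') → ps i' m' (pl i m t) ∈ BS) {κ : K} (hκ : κ ≠ 0)
    (heq : ∀ i m, ps i m (pl i m t) = κ • t) {c : Fin M → K} (hc : c ≠ 0)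
    (h : ∑ m, c m • ∑ g ∈ f.support, f g • ρ g (pl i₀ m t) ∈ BV) : t ∈ BS := by
  classical
  obtain ⟨m, hm⟩ : ∃ m, c m ≠ 0 := by
    by_contra hcon
    push Not at hcon
    exact hc (funext hcon)
  have hval : ∀ g m', ps (h₀ • i₀) m (ρ g (pl i₀ m' t)) =
      τ g (ps ((g⁻¹ * h₀) • i₀) m (pl i₀ m' t)) := by
    intro g m'
    rw [← hps g ((g⁻¹ * h₀) • i₀) m _ (hpl _ _ _ ht), smul_smul, mul_inv_cancel_left]
  have h2 := hB (h₀ • i₀) m _ h
  have h3 : ps (h₀ • i₀) m (∑ m', c m' • ∑ g ∈ f.support, f g • ρ g (pl i₀ m' t)) =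
      ∑ m', c m' • ∑ g ∈ f.support, f g • τ g (ps ((g⁻¹ * h₀) • i₀) m (pl i₀ m' t)) := by
    rw [map_sum]
    refine Finset.sum_congr rfl fun m' _ => ?_
    rw [map_smul, map_sum]
    congr 1
    refine Finset.sum_congr rfl fun g _ => ?_
    rw [map_smul, hval]
  rw [h3, ← Finset.add_sum_erase _ _ (Finset.mem_univ m)] at h2
  have h4 : ∑ m' ∈ Finset.univ.erase m, c m' • ∑ g ∈ f.support,
      f g • τ g (ps ((g⁻¹ * h₀) • i₀) m (pl i₀ m' t)) ∈ BS := by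
    refine Submodule.sum_mem _ fun m' hm' => Submodule.smul_mem _ _
      (Submodule.sum_mem _ fun g _ => Submodule.smul_mem _ _ (hBG _ _ ?_))
    exact hne _ _ _ _ fun e => (Finset.mem_erase.1 hm').1 (congrArg Prod.snd e)
  have h5 := Submodule.sub_mem _ h2 h4
  rw [add_sub_cancel_right, ← Finset.add_sum_erase _ _ hf, smul_add] at h5
  have h6 : c m • ∑ g ∈ f.support.erase h₀,
      f g • τ g (ps ((g⁻¹ * h₀) • i₀) m (pl i₀ m t)) ∈ BS := by
    refine Submodule.smul_mem _ _ (Submodule.sum_mem _ fun g hg => Submodule.smul_mem _ _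
      (hBG _ _ (hne _ _ _ _ fun e => ?_)))
    have e1 : i₀ = (g⁻¹ * h₀) • i₀ := congrArg Prod.fst e
    apply hi₀ g (Finset.mem_erase.1 hg).2 (Finset.mem_erase.1 hg).1
    have e2 := congrArg (fun i => g • i) e1
    rw [smul_smul, mul_inv_cancel_left] at e2
    exact e2
  have h7 := Submodule.sub_mem _ h5 h6
  rw [add_sub_cancel_right, inv_mul_cancel, one_smul, heq, hsmul _ _ _ ht, smul_smul,
    smul_smul] at h7
  have h8 : c m * (f h₀ * κ) ≠ 0 :=
    mul_ne_zero hm (mul_ne_zero (Finsupp.mem_support_iff.1 hf) hκ)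
  have h9 := Submodule.smul_mem _ (c m * (f h₀ * κ))⁻¹ h7
  rw [smul_smul, ← mul_assoc (c m) (f h₀) κ] at h9
  rw [inv_mul_cancel₀ (by rwa [← mul_assoc] at h8), one_smul] at h9
  have h10 := hBG h₀⁻¹ _ h9
  rwa [← hmul _ _ _ ht, inv_mul_cancel, h1 _ ht] at h10

variable {k : Type u} [Field k] {𝒱 : VarClass k} {C : TheoryData.{u, v, 0} 𝒱 ℚ}
  {K : Type w} [Field K] {n r : ℕ} {G : Type x} [Group G] {T : TheoryData.{u, v, w} 𝒱 K}
  {R : Forms.{u, v, w, x, y} G T}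

/-- The data of `HasTwistedPower`. -/
structure TP (R : Forms.{u, v, w, x, y} G T) (C : TheoryData.{u, v, 0} 𝒱 ℚ) (n : ℕ)
    (U : Subgroup G) (M : ℕ) (S V : R.Form) (p : G ⧸ U → ℕ → (R.obj V ⟶ R.obj S))
    (a : C.A (R.obj S)) (c κ : ℚ) : Prop where
  dimS : (R.obj S).dim = n
  dimV : (R.obj V).dim = n
  ha : C.Deg 1 a
  hκ : κ ≠ 0
  pp : ∀ (i : G ⧸ U), ∀ m < M, C.down (p i m) 1 = κ • (1 : C.A (R.obj S))
  pq : ∀ (i j : G ⧸ U), ∀ m < M, ∀ m' < M, (i, m) ≠ (j, m') →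
      C.down (Obj.lift (p i m) (p j m')) 1 =
        c • (C.up (fst (R.obj S) (R.obj S)) a + C.up (snd (R.obj S) (R.obj S)) a) ^ n
  conj : ∀ (g : G) (i : G ⧸ U), ∀ m < M, R.conj g V S (p i m) = p (g • i) m

section power

variable {S V : R.Form} {M : ℕ} {U : Subgroup G} {p : G ⧸ U → ℕ → (R.obj V ⟶ R.obj S)}
  {a : C.A (R.obj S)} {c κ : ℚ}

lemma TP.pw (h : TP R C n U M S V p a c κ) {i j : G ⧸ U} {m m' : ℕ} (hm : m < M) (hm' : m' < M)
    (hne : (i, m) ≠ (j, m')) :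
    Pw C n 2 (fun l => if l = 0 then p i m else p j m') a c κ where
  dimS := h.dimS
  dimV := h.dimV
  ha := h.ha
  hκ := h.hκ
  pp l hl := by
    by_cases h0 : l = 0
    · rw [if_pos h0]
      exact h.pp i m hm
    · rw [if_neg h0]
      exact h.pp j m' hm'
  pq l hl l' hl' hll := by
    by_cases h0 : l = 0
    · rw [if_pos h0, if_neg (by omega)]
      exact h.pq i j m hm m' hm' hne
    · rw [if_neg h0, if_pos (by omega)]
      exact h.pq j i m' hm' m hm hne.symm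

lemma TP.pw1 (h : TP R C n U M S V p a c κ) (i : G ⧸ U) {m : ℕ} (hm : m < M) :
    Pw C n 1 (fun _ => p i m) a c κ where
  dimS := h.dimS
  dimV := h.dimV
  ha := h.ha
  hκ := h.hκ
  pp l _ := h.pp i m hm
  pq l hl l' hl' hne := absurd (by omega) hne

lemma TP.act_down {e : ℤ} (hR : IsGalois R e) (h : TP R C n U M S V p a c κ) (g : G)
    (i : G ⧸ U) {m : ℕ} (hm : m < M) {t : T.A (R.obj V)} (ht : T.Deg (e * r) t) :
    R.act g S r (T.down (p i m) t) = T.down (p (g • i) m) (R.act g V r t) := by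
  rw [hR.push g V S (p i m) r t ht (by rw [h.dimS, h.dimV]), h.conj g i m hm]

lemma TP.act_up {e : ℤ} (hR : IsGalois R e) (h : TP R C n U M S V p a c κ) (g : G)
    (i : G ⧸ U) {m : ℕ} (hm : m < M) {t : T.A (R.obj S)} (ht : T.Deg (e * r) t) :
    R.act g V r (T.up (p i m) t) = T.up (p (g • i) m) (R.act g S r t) := by
  rw [hR.pull g V S (p i m) r t ht, h.conj g i m hm]

end power

/-- For the support of an element of the group algebra, twisted powers with many projections. -/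
lemma exists_tp {S : R.Form} (hS : (R.obj S).dim = n) (hP : HasTwistedPowers R C n) {f : G →₀ K}
    {h₀ : G} : ∃ U : Subgroup G, U.FiniteIndex ∧
      (∀ h ∈ f.support, h ≠ h₀ → h • (QuotientGroup.mk 1 : G ⧸ U) ≠ h₀ • QuotientGroup.mk 1) ∧
      ∀ M, ∃ (V : R.Form) (p : G ⧸ U → ℕ → (R.obj V ⟶ R.obj S)) (a : C.A (R.obj S)) (c κ : ℚ),
        TP R C n U M S V p a c κ := by
  classical
  obtain ⟨U, hU, hE, hM⟩ := hP S hS ((f.support.erase h₀).image fun h => h⁻¹ * h₀) (by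
    intro h1
    obtain ⟨h, hh, e⟩ := Finset.mem_image.1 h1
    exact (Finset.mem_erase.1 hh).1 (inv_mul_eq_one.1 e))
  refine ⟨U, hU, fun h hh hne e => ?_, fun M => ?_⟩
  · apply hE (h⁻¹ * h₀) (Finset.mem_image.2 ⟨h, Finset.mem_erase.2 ⟨hne, hh⟩, rfl⟩)
    have e1 : (QuotientGroup.mk (h * 1) : G ⧸ U) = QuotientGroup.mk (h₀ * 1) := e
    rw [mul_one, mul_one] at e1
    exact QuotientGroup.eq.1 e1
  · obtain ⟨V, p, a, c, κ, e1, e2, e3, e4, e5, e6⟩ := hM M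
    exact ⟨V, p, a, c, κ, hS, e1, e2, e3, e4, e5, e6⟩

end Pool.Agent.V1157.GA
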