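import Pool.Agent.V1157.GA.ChowDefs
import Pool.Agent.V1157.GA.Core
import Pool.Agent.V1157.WF.Core

/-!
# Group algebras acting on kernels of Abel-Jacobi maps
-/

open CategoryTheory AlgebraicGeometry

universe u v w x y

namespace Pool.Agent.V1157.GA

open Pool.Agent.H914 Pool.Agent.H914.VarClass Pool.Agent.H914.VarClass.Obj Pool.Agent.W492.BB
  Pool.Agent.W550.Corr Pool.Agent.TH133 Pool.Agent.Y148.BB
open Pool.Agent.V1157.BD (Pw)
open Pool.Agent.V1157.RC (push_pull_of)

set_option linter.unusedSectionVars false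

variable {k : Type u} [Field k] {𝒱 : VarClass k} {C : TheoryData.{u, v, 0} 𝒱 ℚ}
  [hC : IsChowProj C] {K : Type w} [Field K] {H : WeilTheoryData.{u, v, w} C K}
  [hH : IsWeilProj H] {n r : ℕ} {G : Type x} [Group G] {R : Forms.{u, v, 0, x, y} G C}
  {N : ∀ X : 𝒱.Obj, ℕ → Submodule ℚ (C.A X)}

lemma kernel_pull (hN : IsAbelJacobiKernel H N) {V S : 𝒱.Obj} (hV : V.dim = n) (hS : S.dim = n)
    (f : V ⟶ S) {z : C.A S} (hz : z ∈ N S r) : C.pull f z ∈ N V r := by
  rw [← C.act_cograph]
  exact hN.stable S V r r _ (gr_congr (by ring) (cograph_mem f)) z hz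

/-- **If an element of the group algebra has bounded rank on the kernels of the Abel-Jacobi maps,
then these kernels vanish.** -/
theorem injective_of_rank (hN : IsAbelJacobiKernel H N) (hR : IsGalois R 1)
    (hP : HasTwistedPowers R C n) {f : G →₀ ℚ} (hf : f ≠ 0) {D : ℕ}
    (hD : KernelRankAtMost R N n r f D) : AbelJacobiInjective R N n r := by
  intro S t hS ht
  obtain ⟨h₀, hh₀⟩ := Finsupp.support_nonempty_iff.2 hf
  obtain ⟨U, hU, hi, hM⟩ := exists_tp hS hP (f := f) (h₀ := h₀)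
  obtain ⟨V, p, a, b, κ, h⟩ := hM (D + 1)
  obtain ⟨c, hc, hc2⟩ := hD V (fun m => C.up (p (QuotientGroup.mk 1) m) t) h.dimV
    (fun m => kernel_pull hN h.dimV h.dimS _ ht)
  have hdeg : C.Deg (1 * r) t := gr_congr (by ring) (hN.deg _ _ _ ht).1
  have key := core (M := D + 1) (ρ := fun g s => R.act g V r s) (τ := fun g s => R.act g S r s)
    (DV := C.gr (R.obj V) (1 * r)) (DS := C.gr (R.obj S) (1 * r))
    (fun i m => (C.pull (p i m)).toLinearMap) (fun i m => C.push (p i m))
    (fun i m s hs => C.pull_mem _ hs) (fun g i m v hv => (h.act_down hR g i m.2 hv).symm)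
    (fun s hs => hR.one S r s hs) (fun g g' s hs => hR.mul g g' S r s hs)
    (fun g c s hs => hR.smul g S r c s hs) ⊥ ⊥
    (fun i m v hv => by
      rw [Submodule.mem_bot] at hv ⊢
      rw [hv, map_zero])
    (fun g s hs => by
      rw [Submodule.mem_bot] at hs ⊢
      have h0 := hR.smul g S r 0 0 (Submodule.zero_mem _)
      rw [zero_smul, zero_smul] at h0
      rw [hs]
      exact h0) hh₀
    (i₀ := QuotientGroup.mk 1) hi hdeg (fun i i' m m' hne => ?_) (κ := κ) h.hκ (fun i m => ?_)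
    hc ((Submodule.mem_bot _).2 hc2)
  · exact (Submodule.mem_bot _).1 key
  · rw [Submodule.mem_bot]
    exact WF.push_pull_hom (h.pw m.2 m'.2 (fun e => hne (by
      rw [Prod.mk.injEq] at e ⊢
      exact ⟨e.1, Fin.ext e.2⟩))) H (i := 0) (l := 1) (by omega) (by omega)
      (by omega) (hN.deg _ _ _ ht).1 (hN.deg _ _ _ ht).2
  · exact push_pull_of (h.pp i m m.2) t

omit hC hH in
theorem rank_of_injective (hR : IsGalois R 1) (h : AbelJacobiInjective R N n r)
    (f : G →₀ ℚ) : KernelRankAtMost R N n r f 0 := by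
  intro X z hX hz
  refine ⟨fun _ => 1, fun h0 => one_ne_zero (congrFun h0 0), ?_⟩
  apply Finset.sum_eq_zero
  intro i _
  rw [app, Finset.sum_eq_zero, smul_zero]
  intro g _
  have h0 := hR.smul g X r 0 0 (Submodule.zero_mem _)
  rw [zero_smul, zero_smul] at h0
  rw [h X _ hX (hz i), h0, smul_zero]

end Pool.Agent.V1157.GA
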