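import Pool.Agent.V1157.GA.Defs

/-!
# Group algebras acting on kernels of Abel-Jacobi maps: definitions
-/

open CategoryTheory AlgebraicGeometry

universe u v w x y

namespace Pool.Agent.V1157.GA

open Pool.Agent.H914 Pool.Agent.H914.VarClass Pool.Agent.H914.VarClass.Obj Pool.Agent.W492.BB

variable {k : Type u} [Field k] {𝒱 : VarClass k} {C : TheoryData.{u, v, 0} 𝒱 ℚ}
  {G : Type x} [Group G] (R : Forms.{u, v, 0, x, y} G C)
  (N : ∀ X : 𝒱.Obj, ℕ → Submodule ℚ (C.A X))

/-- The Abel-Jacobi maps of the varieties over `F` of dimension `n` are injective on the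
homologically trivial cycles over `k` of codimension `r`, modulo torsion. -/
def AbelJacobiInjective (n r : ℕ) : Prop :=
  ∀ (X : R.Form) (z : C.A (R.obj X)), (R.obj X).dim = n → z ∈ N (R.obj X) r → z = 0

/-- On the varieties over `F` of dimension `n`, the element `f` of the group algebra has rank at
most `D` on the kernel `N X r` of the Abel-Jacobi map in codimension `r`: the space `f (N X r)` has
dimension at most `D`. -/
def KernelRankAtMost (n r : ℕ) (f : G →₀ ℚ) (D : ℕ) : Prop :=
  ∀ (X : R.Form) (z : Fin (D + 1) → C.A (R.obj X)), (R.obj X).dim = n →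
    (∀ i, z i ∈ N (R.obj X) r) →
      ∃ c : Fin (D + 1) → ℚ, c ≠ 0 ∧ ∑ i, c i • app R f X r (z i) = 0

end Pool.Agent.V1157.GA
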