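import Pool.Agent.V1157.BD.Defs

/-!
# Group algebras acting on cycles and cohomology classes: definitions
-/

open CategoryTheory AlgebraicGeometry

universe u v w x y

namespace Pool.Agent.V1157.GA

open Pool.Agent.H914 Pool.Agent.H914.VarClass Pool.Agent.H914.VarClass.Obj Pool.Agent.W492.BB
  Pool.Agent.V1157.BD

variable {k : Type u} [Field k] {𝒱 : VarClass k} {K : Type w} [Field K]

/-- Varieties over a field `F` and their Galois actions. Here `k` is a separable closure of `F`, `G`
the Galois group of `k` over `F`, and `T` is a theory (Chow groups or cohomology) for varieties over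
`k`. -/
structure Forms (G : Type x) [Group G] (T : TheoryData.{u, v, w} 𝒱 K) where
  /-- the varieties over `F` -/
  Form : Type y
  /-- the variety over `k` deduced from the variety `X` over `F` -/
  obj : Form → 𝒱.Obj
  /-- the conjugate by `g` of the morphism `f : X ⟶ Y` over `k` -/
  conj : G → ∀ X Y : Form, (obj X ⟶ obj Y) → (obj X ⟶ obj Y)
  /-- `act g X r t` is `g t`, for `t` of codimension `r` -/
  act : G → ∀ X : Form, ℕ → T.A (obj X) → T.A (obj X)

variable {G : Type x} [Group G] {T : TheoryData.{u, v, w} 𝒱 K} (R : Forms.{u, v, w, x, y} G T)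

/-- The laws of the Galois actions on the classes of codimension `r`, that is, of degree `e r`
(`e = 1` for Chow groups and `e = 2` for cohomology). -/
structure IsGalois (e : ℤ) : Prop where
  one : ∀ (X : R.Form) (r : ℕ) (t : T.A (R.obj X)), T.Deg (e * r) t → R.act 1 X r t = t
  mul : ∀ (g h : G) (X : R.Form) (r : ℕ) (t : T.A (R.obj X)), T.Deg (e * r) t →
    R.act (g * h) X r t = R.act g X r (R.act h X r t)
  add : ∀ (g : G) (X : R.Form) (r : ℕ) (t s : T.A (R.obj X)), T.Deg (e * r) t → T.Deg (e * r) s →
    R.act g X r (t + s) = R.act g X r t + R.act g X r s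
  smul : ∀ (g : G) (X : R.Form) (r : ℕ) (c : K) (t : T.A (R.obj X)), T.Deg (e * r) t →
    R.act g X r (c • t) = c • R.act g X r t
  pull : ∀ (g : G) (X Y : R.Form) (f : R.obj X ⟶ R.obj Y) (r : ℕ) (t : T.A (R.obj Y)),
    T.Deg (e * r) t → R.act g X r (T.up f t) = T.up (R.conj g X Y f) (R.act g Y r t)
  push : ∀ (g : G) (X Y : R.Form) (f : R.obj X ⟶ R.obj Y) (r : ℕ) (t : T.A (R.obj X)),
    T.Deg (e * r) t → (R.obj X).dim = (R.obj Y).dim →
      R.act g Y r (T.down f t) = T.down (R.conj g X Y f) (R.act g X r t)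

/-- The element `f` of the group algebra `K[G]` applied to the class `t` of codimension `r`. -/
noncomputable def app (f : G →₀ K) (X : R.Form) (r : ℕ) (t : T.A (R.obj X)) : T.A (R.obj X) :=
  ∑ g ∈ f.support, f g • R.act g X r t

variable (C : TheoryData.{u, v, 0} 𝒱 ℚ) (n : ℕ)

/-- Let `S` be a variety over `F` of dimension `n` and `U` a subgroup of finite index of `G`. There
are a variety `V` over `F` of dimension `n` and morphisms `p i m : V ⟶ S` over `k`, `i ∈ G/U`,
`m < M`, of the same degree `κ ≠ 0`, such that the conjugate of `p i m` by `g` is `p (g i) m`, and a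
divisor class `a` on `S` such that for different `(i, m)` and `(j, m')` the class
`(p i m, p j m')_* [V]` on `S × S` is a rational multiple of `(a × S + S × a) ^ n`. (For `n ≥ 1`: `V`
is a complete intersection in the restriction of scalars of `S^M` from the fixed field of `U` to
`F`.) -/
def HasTwistedPower (U : Subgroup G) (M : ℕ) (S : R.Form) : Prop :=
  ∃ (V : R.Form) (p : G ⧸ U → ℕ → (R.obj V ⟶ R.obj S)) (a : C.A (R.obj S)) (c κ : ℚ),
    (R.obj V).dim = n ∧ C.Deg 1 a ∧ κ ≠ 0 ∧
    (∀ (i : G ⧸ U), ∀ m < M, C.down (p i m) 1 = κ • (1 : C.A (R.obj S))) ∧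
    (∀ (i j : G ⧸ U), ∀ m < M, ∀ m' < M, (i, m) ≠ (j, m') →
      C.down (Obj.lift (p i m) (p j m')) 1 =
        c • (C.up (fst (R.obj S) (R.obj S)) a + C.up (snd (R.obj S) (R.obj S)) a) ^ n) ∧
    ∀ (g : G) (i : G ⧸ U), ∀ m < M, R.conj g V S (p i m) = p (g • i) m

/-- For every variety over `F` of dimension `n` and every finite set of non-trivial elements of `G`,
the complete intersections `V` above exist for some subgroup `U` of finite index which avoids this
set. (True for `n ≥ 1`; `U` can be any sufficiently small open normal subgroup.) -/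
def HasTwistedPowers : Prop :=
  ∀ S : R.Form, (R.obj S).dim = n → ∀ E : Finset G, 1 ∉ E →
    ∃ U : Subgroup G, U.FiniteIndex ∧ (∀ g ∈ E, g ∉ U) ∧ ∀ M, HasTwistedPower R C n U M S

end Pool.Agent.V1157.GA
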