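import Pool.Agent.V1157.GA.TateDefs
import Pool.Agent.V1157.GA.Core
import Pool.Agent.V1157.SS.Main

/-!
# Group algebras acting on Tate classes
-/

open CategoryTheory AlgebraicGeometry

universe u v w x y

namespace Pool.Agent.V1157.GA

open Pool.Agent.H914 Pool.Agent.H914.VarClass Pool.Agent.H914.VarClass.Obj Pool.Agent.W492.BB
  Pool.Agent.W550.Corr Pool.Agent.TH133 Pool.Agent.Y148.BB
open Pool.Agent.V1157.BD (Pw IsAlg alg_push sc)

set_option linter.unusedSectionVars false

variable {k : Type u} [Field k] {𝒱 : VarClass k} {C : TheoryData.{u, v, 0} 𝒱 ℚ}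
  [hC : IsChowProj C] {K : Type w} [Field K] {H : WeilTheoryData.{u, v, w} C K}
  [hH : IsWeilProj H] {n r : ℕ} {G : Type x} [Group G]
  {R : Forms.{u, v, w, x, y} G H.toTheoryData}

lemma TP.isTate_up (hR : IsGalois R 2) {S V : R.Form} {M : ℕ} {U : Subgroup G}
    [hU : U.FiniteIndex] {p : G ⧸ U → ℕ → (R.obj V ⟶ R.obj S)} {a : C.A (R.obj S)} {c κ : ℚ}
    (h : TP R C n U M S V p a c κ) (i : G ⧸ U) {m : ℕ} (hm : m < M) {t : H.A (R.obj S)}
    (ht : IsTate H R S r t) : IsTate H R V r (H.up (p i m) t) := by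
  obtain ⟨ht, U', hU', hU2⟩ := ht
  refine ⟨H.pull_mem _ ht, U' ⊓ MulAction.stabilizer G i, ?_, ?_⟩
  · have : (MulAction.stabilizer G i).FiniteIndex := by
      refine ⟨?_⟩
      rw [MulAction.index_stabilizer]
      have h0 : Finite (G ⧸ U) := inferInstance
      have h1 : Finite (MulAction.orbit G i) := Set.toFinite _
      have h2 : Nonempty (MulAction.orbit G i) := ⟨⟨i, MulAction.mem_orbit_self i⟩⟩
      exact Nat.card_pos.ne'
    infer_instance
  · intro g hg
    have h1 : g • i = i := hg.2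
    have h2 := h.act_up hR g i hm ht
    rw [h1, hU2 g hg.1] at h2
    exact h2

omit hC in
lemma cast_smul [CharZero K] {X : 𝒱.Obj} (κ : ℚ) (t : H.A X) : sc H X κ * t = (κ : K) • t := by
  have h1 : (H.cl (X := X)).comp (algebraMap ℚ (C.A X)) =
      (algebraMap K (H.A X)).comp (algebraMap ℚ K) := RingHom.ext_rat _ _
  have h2 : sc H X κ = algebraMap K (H.A X) (κ : K) := by
    have := RingHom.congr_fun h1 κ
    simpa [sc] using this
  rw [h2, Algebra.smul_def]

/-- **If an element of the group algebra has bounded rank on the Tate classes modulo algebraic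
classes, then all Tate classes are algebraic.** -/
theorem tate_of_rank [CharZero K] (hR : IsGalois R 2) (hcl : CyclesStable H R)
    (hP : HasTwistedPowers R C n) {f : G →₀ K} (hf : f ≠ 0) {D : ℕ}
    (hD : TateRankAtMost H R n r f D) : TateConj H R n r := by
  intro S t hS ht
  obtain ⟨h₀, hh₀⟩ := Finsupp.support_nonempty_iff.2 hf
  obtain ⟨U, hU, hi, hM⟩ := exists_tp hS hP (f := f) (h₀ := h₀)
  obtain ⟨V, p, a, b, κ, h⟩ := hM (D + 1)
  obtain ⟨c, hc, hc2⟩ := hD V (fun m => H.up (p (QuotientGroup.mk 1) m) t) h.dimV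
    (fun m => TP.isTate_up hR h _ m.2 ht)
  refine core (M := D + 1) (ρ := fun g s => R.act g V r s) (τ := fun g s => R.act g S r s)
    (DV := H.gr (R.obj V) (2 * r)) (DS := H.gr (R.obj S) (2 * r))
    (fun i m => (H.pull (p i m)).toLinearMap) (fun i m => H.push (p i m))
    (fun i m s hs => H.pull_mem _ hs) (fun g i m v hv => (h.act_down hR g i m.2 hv).symm)
    (fun s hs => hR.one S r s hs) (fun g g' s hs => hR.mul g g' S r s hs)
    (fun g c s hs => hR.smul g S r c s hs)
    (Submodule.span K {y : H.A (R.obj V) | ∃ z : C.A (R.obj V), C.Deg r z ∧ y = H.cl z})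
    (Submodule.span K {y : H.A (R.obj S) | ∃ z : C.A (R.obj S), C.Deg r z ∧ y = H.cl z})
    (fun i m v hv => alg_push h.dimV h.dimS (p i m) hv) (fun g s hs => hcl g S r s hs) hh₀
    (i₀ := QuotientGroup.mk 1) hi ht.1 (fun i i' m m' hne => ?_) (κ := (κ : K))
    (by exact_mod_cast h.hκ) (fun i m => ?_) hc hc2
  · exact (h.pw m.2 m'.2 (fun e => hne (by
      rw [Prod.mk.injEq] at e ⊢
      exact ⟨e.1, Fin.ext e.2⟩))).push_pull_ne (i := 0) (j := 1) (by omega) (by omega)
      (by omega) ht.1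
  · have h1 := (h.pw1 i m.2).push_pull (H := H) (i := 0) (by omega) t
    rw [cast_smul] at h1
    exact h1

omit hC hH in
theorem rank_of_tate (hcl : CyclesStable H R) (h : TateConj H R n r) (f : G →₀ K) :
    TateRankAtMost H R n r f 0 := by
  intro X t hX ht
  refine ⟨fun _ => 1, fun h0 => one_ne_zero (congrFun h0 0), ?_⟩
  exact Submodule.sum_mem _ fun i _ => Submodule.smul_mem _ _
    (Submodule.sum_mem _ fun g _ => Submodule.smul_mem _ _ (hcl g X r _ (h X (t i) hX (ht i))))

end Pool.Agent.V1157.GA
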