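import Pool.Agent.V1157.GA.Defs

/-!
# Group algebras acting on Tate classes: definitions
-/

open CategoryTheory AlgebraicGeometry

universe u v w x y

namespace Pool.Agent.V1157.GA

open Pool.Agent.H914 Pool.Agent.H914.VarClass Pool.Agent.H914.VarClass.Obj Pool.Agent.W492.BB
  Pool.Agent.V1157.BD

variable {k : Type u} [Field k] {𝒱 : VarClass k} {C : TheoryData.{u, v, 0} 𝒱 ℚ} {K : Type w}
  [Field K] {G : Type x} [Group G] (H : WeilTheoryData.{u, v, w} C K)
  (R : Forms.{u, v, w, x, y} G H.toTheoryData)

/-- The Galois groups map classes of cycles to linear combinations of classes of cycles. -/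
def CyclesStable : Prop :=
  ∀ (g : G) (X : R.Form) (r : ℕ) (t : H.A (R.obj X)), IsAlg H r t → IsAlg H r (R.act g X r t)

/-- The class `t ∈ H^{2r}(X)(r)` is a Tate class: it is fixed by a subgroup of finite index. -/
def IsTate (X : R.Form) (r : ℕ) (t : H.A (R.obj X)) : Prop :=
  H.Deg (2 * r) t ∧ ∃ U : Subgroup G, U.FiniteIndex ∧ ∀ g ∈ U, R.act g X r t = t

/-- The Tate conjecture in dimension `n` and codimension `r`: all Tate classes on the varieties over
`F` of dimension `n` are linear combinations of classes of cycles over `k`. -/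
def TateConj (n r : ℕ) : Prop :=
  ∀ (X : R.Form) (t : H.A (R.obj X)), (R.obj X).dim = n → IsTate H R X r t → IsAlg H r t

/-- On the varieties over `F` of dimension `n`, the element `f` of the group algebra has rank at
most `D` on the space of Tate classes in `H^{2r}(X)(r)` modulo algebraic classes. -/
def TateRankAtMost (n r : ℕ) (f : G →₀ K) (D : ℕ) : Prop :=
  ∀ (X : R.Form) (t : Fin (D + 1) → H.A (R.obj X)), (R.obj X).dim = n →
    (∀ i, IsTate H R X r (t i)) →
      ∃ c : Fin (D + 1) → K, c ≠ 0 ∧ IsAlg H r (∑ i, c i • app R f X r (t i))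

end Pool.Agent.V1157.GA
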